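import Pool.Agent.Helper9.WS.Defs
import Pool.Agent.Helper9.WS.LA
import Pool.Agent.Helper54.WS.Cyc

/-!
WS-19: weight blocks of cyclic block matrices.
-/

open Finset

namespace Pool.Agent.Helper9.WS

private theorem charpolyRev_equiv21 {K J J' : Type} [CommRing K] [Fintype J] [DecidableEq J] [Fintype J']
    [DecidableEq J'] (e : J' ≃ J) (M : Matrix J J K) : (M.submatrix e e).charpolyRev = M.charpolyRev := by
  unfold Matrix.charpolyRev
  rw [← Matrix.det_submatrix_equiv_self e (1 - (Polynomial.X : Polynomial K) • M.map Polynomial.C)]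
  congr 1
  ext i j : 2
  simp [Matrix.one_apply]

private theorem det_mprod21 {K I : Type} [Field K] [Fintype I] [DecidableEq I] (A : ℕ → Matrix I I K) (s : ℕ)
    (h : (mprod A s).det ≠ 0) : ∀ i < s, (A i).det ≠ 0 := by
  induction s with
  | zero =>
    intro i hi
    exact absurd hi (Nat.not_lt_zero i)
  | succ s ih =>
    have h1 : mprod A (s + 1) = A s * mprod A s := rfl
    rw [h1, Matrix.det_mul] at h
    intro i hi
    rcases Nat.lt_succ_iff_lt_or_eq.1 hi with h2 | h2
    · exact ih (right_ne_zero_of_mul h) i h2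
    · rw [h2]
      exact left_ne_zero_of_mul h

section

variable {K I : Type} [Field K] [Fintype I] [DecidableEq I] {s m W : ℕ} (w : I → ℕ)
  (A : ℕ → Matrix I I K)

theorem cyc_low (hs : 0 < s) (hm : 0 < m)
    (h0 : ∀ i, ∀ U V, w U < W → w V < W → w U ≠ w V → A i U V = 0)
    (hd : ∀ j < W, (mprod (fun i => (fun U V => A i U V : Matrix {U // w U = j} {U // w U = j} K))
      s).det ≠ 0) {j : ℕ} (hj : j < W) :
    (lowBlock (fun x : Fin s × I => m * w x.2) (m * j) (cyc s A)).det ≠ 0 := by
  let e : Fin s × {U // w U < j} ≃ {x : Fin s × I // m * w x.2 < m * j} :=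
    { toFun := fun x => ⟨(x.1, x.2.1), Nat.mul_lt_mul_of_pos_left x.2.2 hm⟩
      invFun := fun x => (x.1.1, ⟨x.1.2, Nat.lt_of_mul_lt_mul_left x.2⟩)
      left_inv := fun _ => rfl
      right_inv := fun _ => rfl }
  have h1 : (lowBlock (fun x : Fin s × I => m * w x.2) (m * j) (cyc s A)).submatrix e e =
      cyc s (fun i => (fun U V => A i U V : Matrix {U // w U < j} {U // w U < j} K)) := rfl
  rw [← Matrix.det_submatrix_equiv_self e, h1]
  refine det_cyc_ne_zero hs _ fun i hi => ?_
  have h2 : Matrix.BlockTriangular (fun U V => A i U V : Matrix {U // w U < j} {U // w U < j} K)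
      (fun U => w U.1) := by
    intro U V hUV
    exact h0 i U V (U.2.trans hj) (V.2.trans hj) (ne_of_gt hUV)
  rw [h2.det, Finset.prod_ne_zero_iff]
  intro a ha
  obtain ⟨U0, _, hU0⟩ := Finset.mem_image.1 ha
  have haj : a < j := by
    rw [← hU0]
    exact U0.2
  have h3 := det_mprod21 _ s (hd a (haj.trans hj)) i hi
  let e' : {U // w U = a} ≃ {U : {U // w U < j} // w U.1 = a} :=
    { toFun := fun U => ⟨⟨U.1, by rw [U.2]; exact haj⟩, U.2⟩
      invFun := fun U => ⟨U.1.1, U.2⟩
      left_inv := fun _ => rfl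
      right_inv := fun _ => rfl }
  have h4 : (Matrix.toSquareBlock (fun U V => A i U V : Matrix {U // w U < j} {U // w U < j} K)
      (fun U => w U.1) a).submatrix e' e' = (fun U V => A i U V : Matrix {U // w U = a} {U // w U = a} K) := rfl
  rw [← Matrix.det_submatrix_equiv_self e', h4]
  exact h3

theorem cyc_mid (hs : 0 < s) (hm : 0 < m) (j : ℕ) :
    (midBlock (fun x : Fin s × I => m * w x.2) (m * j) (cyc s A)).charpolyRev =
      Polynomial.expand K s (mprod (fun i => (fun U V => A i U V :
        Matrix {U // w U = j} {U // w U = j} K)) s).charpolyRev := by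
  let e : Fin s × {U // w U = j} ≃ {x : Fin s × I // m * w x.2 = m * j} :=
    { toFun := fun x => ⟨(x.1, x.2.1), by rw [x.2.2]⟩
      invFun := fun x => (x.1.1, ⟨x.1.2, Nat.eq_of_mul_eq_mul_left hm x.2⟩)
      left_inv := fun _ => rfl
      right_inv := fun _ => rfl }
  have h1 : (midBlock (fun x : Fin s × I => m * w x.2) (m * j) (cyc s A)).submatrix e e =
      cyc s (fun i => (fun U V => A i U V : Matrix {U // w U = j} {U // w U = j} K)) := rfl
  rw [← charpolyRev_equiv21 e, h1]
  exact charpolyRev_cyc hs _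

end

end Pool.Agent.Helper9.WS
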