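import Pool.Agent.Helper9.WS.Defs

/-!
WS-13c: the combinatorics of the family `y ^ 2 = x ^ 3 + A (t) x + B (t)`.
-/

open MvPolynomial Finset

namespace Pool.Agent.Helper9.WS

section wei

variable {k : Type} [Field k]

private theorem wei_expand (g A B : Polynomial k) :
    ell4 (weiF A B) g =
      (∑ j ∈ range (g.natDegree + 1), monomial (Finsupp.single 0 j) (g.coeff j)) +
      (monomial (Finsupp.single 1 3 + Finsupp.single 2 1) 1 +
      (∑ i ∈ range (A.natDegree + 1),
        monomial (Finsupp.single 0 i + Finsupp.single 1 1 + Finsupp.single 2 1) (A.coeff i)) +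
      (∑ i ∈ range (B.natDegree + 1), monomial (Finsupp.single 0 i + Finsupp.single 2 1) (B.coeff i))) +
      monomial (Finsupp.single 3 1) 1 := by
  have hval : ellVal (weiF A B) (X 1 : MvPolynomial (Fin 4) k) (X 0) =
      X 1 ^ 3 + Polynomial.aeval (X 0) A * X 1 + Polynomial.aeval (X 0) B := by
    unfold ellVal weiF
    rw [Polynomial.eval₂_add, Polynomial.eval₂_add, Polynomial.eval₂_mul, Polynomial.eval₂_C,
      Polynomial.eval₂_C, Polynomial.eval₂_pow, Polynomial.eval₂_X]
    rfl
  have hs : ∀ G : Polynomial k, (Polynomial.aeval (X 0 : MvPolynomial (Fin 4) k) G) =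
      ∑ j ∈ range (G.natDegree + 1), monomial (Finsupp.single 0 j) (G.coeff j) := by
    intro G
    rw [Polynomial.aeval_eq_sum_range]
    refine Finset.sum_congr rfl fun j _ => ?_
    rw [X_pow_eq_monomial, smul_monomial, smul_eq_mul, mul_one]
  unfold ell4
  rw [hval, hs, hs, hs, mul_add, mul_add, Finset.sum_mul, Finset.mul_sum, Finset.mul_sum]
  congr 2
  congr 1
  · congr 1
    · rw [X_pow_eq_monomial, X, monomial_mul, one_mul, add_comm]
    · refine Finset.sum_congr rfl fun j _ => ?_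
      rw [X, X, monomial_mul, monomial_mul, one_mul, mul_one, add_comm]
  · refine Finset.sum_congr rfl fun j _ => ?_
    rw [X, monomial_mul, one_mul, add_comm]

private theorem wei_support (g A B : Polynomial k) {e : Fin 4 →₀ ℕ} (he : e ∈ (ell4 (weiF A B) g).support) :
    (∃ j ≤ g.natDegree, e = Finsupp.single 0 j) ∨ e = Finsupp.single 1 3 + Finsupp.single 2 1 ∨
    (∃ i ≤ A.natDegree, e = Finsupp.single 0 i + Finsupp.single 1 1 + Finsupp.single 2 1) ∨
    (∃ i ≤ B.natDegree, e = Finsupp.single 0 i + Finsupp.single 2 1) ∨ e = Finsupp.single 3 1 := by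
  classical
  by_contra hcon
  push Not at hcon
  obtain ⟨h1, h2, h3, h4, h5⟩ := hcon
  rw [mem_support_iff] at he
  apply he
  rw [wei_expand, coeff_add, coeff_add, coeff_add, coeff_add, coeff_sum, coeff_sum, coeff_sum]
  simp only [coeff_monomial]
  rw [Finset.sum_eq_zero, Finset.sum_eq_zero, Finset.sum_eq_zero, if_neg (Ne.symm h2), if_neg (Ne.symm h5)]
  · simp
  · intro i hi
    rw [if_neg]
    intro h
    exact h4 i (by have := Finset.mem_range.1 hi; omega) h.symm
  · intro i hi
    rw [if_neg]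
    intro h
    exact h3 i (by have := Finset.mem_range.1 hi; omega) h.symm
  · intro i hi
    rw [if_neg]
    intro h
    exact h1 i (by have := Finset.mem_range.1 hi; omega) h.symm

private theorem wei_coeff (g A B : Polynomial k) (e : Fin 4 →₀ ℕ) :
    (ell4 (weiF A B) g).coeff e =
      (∑ j ∈ range (g.natDegree + 1), if Finsupp.single 0 j = e then g.coeff j else 0) +
      ((if Finsupp.single 1 3 + Finsupp.single 2 1 = e then 1 else 0) +
      (∑ i ∈ range (A.natDegree + 1),
        if Finsupp.single 0 i + Finsupp.single 1 1 + Finsupp.single 2 1 = e then A.coeff i else 0) +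
      (∑ i ∈ range (B.natDegree + 1), if Finsupp.single 0 i + Finsupp.single 2 1 = e then B.coeff i else 0)) +
      (if Finsupp.single 3 1 = e then 1 else 0) := by
  classical
  rw [wei_expand, coeff_add, coeff_add, coeff_add, coeff_add, coeff_sum, coeff_sum, coeff_sum]
  simp only [coeff_monomial]

private theorem ne_of_apply {a b : Fin 4 →₀ ℕ} (j : Fin 4) (h : a j ≠ b j) : a ≠ b := by
  intro hab
  exact h (by rw [hab])

private theorem wei_mem1 (g A B : Polynomial k) (hg : 0 < g.natDegree) :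
    (Finsupp.single 0 g.natDegree : Fin 4 →₀ ℕ) ∈ (ell4 (weiF A B) g).support := by
  classical
  rw [mem_support_iff, wei_coeff, Finset.sum_eq_single g.natDegree, if_pos rfl, if_neg, Finset.sum_eq_zero,
    Finset.sum_eq_zero, if_neg]
  · rw [add_zero, add_zero, add_zero, add_zero]
    rw [Polynomial.coeff_natDegree]
    intro h
    rw [Polynomial.leadingCoeff_eq_zero] at h
    rw [h, Polynomial.natDegree_zero] at hg
    exact lt_irrefl _ hg
  · exact ne_of_apply 3 (by simp)
  · intro i _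
    exact if_neg (ne_of_apply 2 (by simp))
  · intro i _
    exact if_neg (ne_of_apply 2 (by simp))
  · exact ne_of_apply 2 (by simp)
  · intro j _ hj
    exact if_neg (ne_of_apply 0 (by simpa using hj))
  · intro h
    exact absurd (Finset.mem_range.2 (Nat.lt_succ_self _)) h

private theorem wei_mem2 (g A B : Polynomial k) :
    (Finsupp.single 1 3 + Finsupp.single 2 1 : Fin 4 →₀ ℕ) ∈ (ell4 (weiF A B) g).support := by
  classical
  rw [mem_support_iff, wei_coeff, Finset.sum_eq_zero, if_pos rfl, Finset.sum_eq_zero,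
    Finset.sum_eq_zero, if_neg]
  · simp
  · exact ne_of_apply 3 (by simp)
  · intro i _
    exact if_neg (ne_of_apply 1 (by simp))
  · intro i _
    exact if_neg (ne_of_apply 1 (by simp))
  · intro i _
    exact if_neg (ne_of_apply 2 (by simp))

private theorem wei_mem3 (g A B : Polynomial k) (hB : 0 < B.natDegree) :
    (Finsupp.single 0 B.natDegree + Finsupp.single 2 1 : Fin 4 →₀ ℕ) ∈ (ell4 (weiF A B) g).support := by
  classical
  rw [mem_support_iff, wei_coeff, Finset.sum_eq_zero, if_neg, Finset.sum_eq_zero,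
    Finset.sum_eq_single B.natDegree, if_pos rfl, if_neg]
  · rw [zero_add, zero_add, zero_add, add_zero]
    rw [Polynomial.coeff_natDegree]
    intro h
    rw [Polynomial.leadingCoeff_eq_zero] at h
    rw [h, Polynomial.natDegree_zero] at hB
    exact lt_irrefl _ hB
  · exact ne_of_apply 3 (by simp)
  · intro i _ hi
    exact if_neg (ne_of_apply 0 (by simpa using hi))
  · intro h
    exact absurd (Finset.mem_range.2 (Nat.lt_succ_self _)) h
  · intro i _
    exact if_neg (ne_of_apply 1 (by simp))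
  · exact ne_of_apply 1 (by simp)
  · intro i _
    exact if_neg (ne_of_apply 2 (by simp))

private theorem wei_mem4 (g A B : Polynomial k) :
    (Finsupp.single 3 1 : Fin 4 →₀ ℕ) ∈ (ell4 (weiF A B) g).support := by
  classical
  rw [mem_support_iff, wei_coeff, Finset.sum_eq_zero, if_neg, Finset.sum_eq_zero,
    Finset.sum_eq_zero, if_pos rfl]
  · simp
  · intro i _
    exact if_neg (ne_of_apply 3 (by simp))
  · intro i _
    exact if_neg (ne_of_apply 3 (by simp))
  · exact ne_of_apply 3 (by simp)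
  · intro i _
    exact if_neg (ne_of_apply 3 (by simp))

/-- the first linear form -/
private def l1 (d m : ℕ) (U : Fin 4 →₀ ℕ) : ℤ :=
  3 * (U 0 : ℤ) + m * U 1 + 3 * ((d : ℤ) - m) * U 2 + 3 * d * U 3

/-- the second linear form -/
private def l2 (d : ℕ) (U : Fin 4 →₀ ℕ) : ℤ := 3 * d * ((U 2 : ℤ) + U 3)

private theorem l1_add (d m : ℕ) (U V : Fin 4 →₀ ℕ) : l1 d m (U + V) = l1 d m U + l1 d m V := by
  unfold l1
  simp only [Finsupp.add_apply, Nat.cast_add]
  ring

private theorem l1_smul (d m n : ℕ) (U : Fin 4 →₀ ℕ) : l1 d m (n • U) = n * l1 d m U := by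
  unfold l1
  simp only [Finsupp.smul_apply, smul_eq_mul, Nat.cast_mul]
  ring

private theorem l2_add (d : ℕ) (U V : Fin 4 →₀ ℕ) : l2 d (U + V) = l2 d U + l2 d V := by
  unfold l2
  simp only [Finsupp.add_apply, Nat.cast_add]
  ring

private theorem l2_smul (d n : ℕ) (U : Fin 4 →₀ ℕ) : l2 d (n • U) = n * l2 d U := by
  unfold l2
  simp only [Finsupp.smul_apply, smul_eq_mul, Nat.cast_mul]
  ring

private theorem l2_nonneg (d : ℕ) (U : Fin 4 →₀ ℕ) : 0 ≤ l2 d U := by
  unfold l2
  positivity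

private theorem l1_sum (d m : ℕ) (E : Finset (Fin 4 →₀ ℕ)) (f : (Fin 4 →₀ ℕ) → ℕ) :
    l1 d m (∑ e ∈ E, f e • e) = ∑ e ∈ E, (f e : ℤ) * l1 d m e := by
  classical
  induction E using Finset.induction_on with
  | empty => simp [l1]
  | insert a E ha ih => rw [Finset.sum_insert ha, Finset.sum_insert ha, l1_add, ih, l1_smul]

/-- the weight -/
private def ww (d m : ℕ) (U : Fin 4 →₀ ℕ) : ℕ := (max (l1 d m U) (l2 d U)).toNat

private theorem ww_cast (d m : ℕ) (U : Fin 4 →₀ ℕ) : (ww d m U : ℤ) = max (l1 d m U) (l2 d U) := by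
  unfold ww
  exact Int.toNat_of_nonneg (le_trans (l2_nonneg d U) (le_max_right _ _))

private theorem wei_exp (g A B : Polynomial k)
    (hA : 3 * A.natDegree < 2 * B.natDegree) {e : Fin 4 →₀ ℕ} (he : e ∈ (ell4 (weiF A B) g).support) :
    l1 g.natDegree B.natDegree e ≤ 3 * g.natDegree ∧ l2 g.natDegree e ≤ 3 * g.natDegree ∧ e 1 ≤ 3 * e 2 ∧
    (l1 g.natDegree B.natDegree e = 3 * g.natDegree → e = Finsupp.single 0 g.natDegree ∨
      e = Finsupp.single 1 3 + Finsupp.single 2 1 ∨ e = Finsupp.single 0 B.natDegree + Finsupp.single 2 1 ∨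
      e = Finsupp.single 3 1) := by
  rcases wei_support g A B he with ⟨j, hj, rfl⟩ | rfl | ⟨i, hi, rfl⟩ | ⟨i, hi, rfl⟩ | rfl
  · refine ⟨?_, ?_, ?_, ?_⟩
    · simp [l1]
      exact hj
    · simp [l2]
    · simp
    · intro h
      left
      simp [l1] at h
      rw [h]
  · refine ⟨?_, ?_, ?_, fun _ => Or.inr (Or.inl rfl)⟩
    · simp [l1]
      linarith
    · simp [l2]
    · simp
  · have h3 : (3 : ℤ) * i < 2 * B.natDegree := by
      have : 3 * i < 2 * B.natDegree := by omega
      exact_mod_cast this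
    refine ⟨?_, ?_, ?_, ?_⟩
    · simp [l1]
      linarith
    · simp [l2]
    · simp
    · intro h
      simp [l1] at h
      linarith
  · have h3 : (i : ℤ) ≤ B.natDegree := by exact_mod_cast hi
    refine ⟨?_, ?_, ?_, ?_⟩
    · simp [l1]
      linarith
    · simp [l2]
    · simp
    · intro h
      simp [l1] at h
      right; right; left
      have : (i : ℤ) = B.natDegree := by linarith
      have : i = B.natDegree := by exact_mod_cast this
      rw [this]
  · refine ⟨?_, ?_, ?_, fun _ => Or.inr (Or.inr (Or.inr rfl))⟩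
    · simp [l1]
    · simp [l2]
    · simp

private theorem wei_sum {M : Type*} [AddCommMonoid M] (g A B : Polynomial k) (hg : 0 < g.natDegree)
    (hB : 0 < B.natDegree) (F : (Fin 4 →₀ ℕ) → M)
    (hF : ∀ e ∈ (ell4 (weiF A B) g).support, F e ≠ 0 → e = Finsupp.single 0 g.natDegree ∨
      e = Finsupp.single 1 3 + Finsupp.single 2 1 ∨ e = Finsupp.single 0 B.natDegree + Finsupp.single 2 1 ∨
      e = Finsupp.single 3 1) :
    ∑ e ∈ (ell4 (weiF A B) g).support, F e = F (Finsupp.single 0 g.natDegree) +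
      (F (Finsupp.single 1 3 + Finsupp.single 2 1) + (F (Finsupp.single 0 B.natDegree + Finsupp.single 2 1) +
      F (Finsupp.single 3 1))) := by
  classical
  set V : Finset (Fin 4 →₀ ℕ) := {Finsupp.single 0 g.natDegree, Finsupp.single 1 3 + Finsupp.single 2 1,
    Finsupp.single 0 B.natDegree + Finsupp.single 2 1, Finsupp.single 3 1} with hV
  have hsub : V ⊆ (ell4 (weiF A B) g).support := by
    intro e he
    rw [hV] at he
    simp only [Finset.mem_insert, Finset.mem_singleton] at he
    rcases he with rfl | rfl | rfl | rfl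
    · exact wei_mem1 g A B hg
    · exact wei_mem2 g A B
    · exact wei_mem3 g A B hB
    · exact wei_mem4 g A B
  rw [← Finset.sum_subset hsub, hV, Finset.sum_insert, Finset.sum_insert, Finset.sum_insert,
    Finset.sum_singleton]
  · rw [Finset.mem_singleton]
    exact ne_of_apply 2 (by simp)
  · simp only [Finset.mem_insert, Finset.mem_singleton, not_or]
    exact ⟨ne_of_apply 1 (by simp), ne_of_apply 2 (by simp)⟩
  · simp only [Finset.mem_insert, Finset.mem_singleton, not_or]
    exact ⟨ne_of_apply 2 (by simp), ne_of_apply 2 (by simp), ne_of_apply 3 (by simp)⟩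
  · intro e he hne
    by_contra h0
    apply hne
    rw [hV]
    simp only [Finset.mem_insert, Finset.mem_singleton]
    exact hF e he h0

/-- the low vectors -/
private noncomputable def lw (R t : ℕ) : Fin 4 →₀ ℕ :=
  Finsupp.equivFunOnFinite.symm ![6 * R * t, 6 * R, 3 * R, 3 * R]

private theorem lw0 (R t : ℕ) : lw R t 0 = 6 * R * t := rfl
private theorem lw1 (R t : ℕ) : lw R t 1 = 6 * R := rfl
private theorem lw2 (R t : ℕ) : lw R t 2 = 3 * R := rfl
private theorem lw3 (R t : ℕ) : lw R t 3 = 3 * R := rfl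

private theorem fin4_ext {U V : Fin 4 →₀ ℕ} (h0 : U 0 = V 0) (h1 : U 1 = V 1) (h2 : U 2 = V 2)
    (h3 : U 3 = V 3) : U = V := by
  ext j
  fin_cases j
  · exact h0
  · exact h1
  · exact h2
  · exact h3

private theorem ww_low {d m R t : ℕ} (hm : m ≤ 5) (ht : 1 ≤ t) :
    (ww d m (lw R t) : ℤ) = R * (18 * t - 3 * m + 18 * d) := by
  rw [ww_cast, max_eq_left]
  · unfold l1
    rw [lw0, lw1, lw2, lw3]
    push_cast
    ring
  · unfold l1 l2
    rw [lw0, lw1, lw2, lw3]
    push_cast
    have h1 : (0 : ℤ) ≤ R := by positivity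
    have h2 : (m : ℤ) ≤ 5 := by exact_mod_cast hm
    have h3 : (1 : ℤ) ≤ t := by exact_mod_cast ht
    nlinarith [mul_nonneg h1 (by linarith : (0 : ℤ) ≤ 6 * t - m)]

private theorem ww_smul (d m p : ℕ) (U : Fin 4 →₀ ℕ) : ww d m (p • U) = p * ww d m U := by
  have h : ((ww d m (p • U) : ℕ) : ℤ) = ((p * ww d m U : ℕ) : ℤ) := by
    rw [Nat.cast_mul, ww_cast, ww_cast, l1_smul, l2_smul, mul_max_of_nonneg _ _ (by positivity)]
  exact_mod_cast h

private theorem ww_exp {d m : ℕ} (n : ℕ) (U e : Fin 4 →₀ ℕ) (h1 : l1 d m e ≤ 3 * d) (h2 : l2 d e ≤ 3 * d) :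
    ww d m (U + n • e) ≤ ww d m U + n * (3 * d) := by
  have h : ((ww d m (U + n • e) : ℕ) : ℤ) ≤ ((ww d m U + n * (3 * d) : ℕ) : ℤ) := by
    push_cast
    rw [ww_cast, ww_cast, l1_add, l2_add, l1_smul, l2_smul]
    have hn : (0 : ℤ) ≤ n := by positivity
    refine max_le ?_ ?_
    · exact add_le_add (le_max_left _ _) (mul_le_mul_of_nonneg_left h1 hn)
    · exact add_le_add (le_max_right _ _) (mul_le_mul_of_nonneg_left h2 hn)
  exact_mod_cast h

/-- the weight structure -/
private noncomputable def wwt (p : ℕ) (g A B : Polynomial k) (hg : 0 < g.natDegree)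
    (hA : 3 * A.natDegree < 2 * B.natDegree) :
    Weight p (ell4 (weiF A B) g).support (fun U => U 1 ≤ 3 * U 2) where
  l := 3 * g.natDegree
  l_pos := by omega
  w := ww g.natDegree B.natDegree
  w_smul U := ww_smul _ _ _ _
  w_exp e he U := ww_exp _ _ _ (wei_exp g A B hA he).1 (wei_exp g A B hA he).2.1
  C_zero := by simp
  C_exp e he U hU := by
    have h1 := (wei_exp g A B hA he).2.2.1
    simp only [Finsupp.add_apply]
    omega
  C_smul m U hm hU := by
    simp only [Finsupp.smul_apply, smul_eq_mul] at hU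
    have h1 : m * U 1 ≤ m * (3 * U 2) := by
      calc m * U 1 ≤ 3 * (m * U 2) := hU
        _ = m * (3 * U 2) := by ring
    exact Nat.le_of_mul_le_mul_left h1 hm

private theorem wei_mem_low {p d m R : ℕ} (hd : 0 < d) (hR : 0 < R) (hp : p - 1 = 6 * R) (hm0 : 1 ≤ m) (hm : m ≤ 5)
    (U : Fin 4 →₀ ℕ) : U ∈ (Finset.Icc 1 d).image (lw R) ↔
      (∀ j, U j ≠ 0 ∧ (p - 1) ∣ U j + ellc p j) ∧ U 1 ≤ 3 * U 2 ∧ ww d m U < 2 * ((p - 1) * (3 * d)) := by
  have hc0 : ellc p 0 = 0 := rfl
  have hc1 : ellc p 1 = 0 := rfl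
  have hc2 : ellc p 2 = 3 * R := by
    show (p - 1) / 2 = 3 * R
    omega
  have hc3 : ellc p 3 = 3 * R := by
    show (p - 1) / 2 = 3 * R
    omega
  have hRz : (0 : ℤ) < R := by exact_mod_cast hR
  have hdz : (0 : ℤ) < d := by exact_mod_cast hd
  have hmz : (m : ℤ) ≤ 5 := by exact_mod_cast hm
  have hmz0 : (1 : ℤ) ≤ m := by exact_mod_cast hm0
  constructor
  · intro hU
    obtain ⟨t, ht, rfl⟩ := Finset.mem_image.1 hU
    rw [Finset.mem_Icc] at ht
    refine ⟨?_, ?_, ?_⟩
    · rw [hp]
      intro j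
      fin_cases j
      · refine ⟨?_, ?_⟩
        · show lw R t 0 ≠ 0
          rw [lw0]
          have : 0 < 6 * R * t := by
            have := ht.1
            positivity
          omega
        · show 6 * R ∣ lw R t 0 + ellc p 0
          rw [lw0, hc0, add_zero]
          exact Dvd.intro _ rfl
      · refine ⟨?_, ?_⟩
        · show lw R t 1 ≠ 0
          rw [lw1]
          omega
        · show 6 * R ∣ lw R t 1 + ellc p 1
          rw [lw1, hc1, add_zero]
      · refine ⟨?_, ?_⟩
        · show lw R t 2 ≠ 0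
          rw [lw2]
          omega
        · show 6 * R ∣ lw R t 2 + ellc p 2
          rw [lw2, hc2]
          exact ⟨1, by ring⟩
      · refine ⟨?_, ?_⟩
        · show lw R t 3 ≠ 0
          rw [lw3]
          omega
        · show 6 * R ∣ lw R t 3 + ellc p 3
          rw [lw3, hc3]
          exact ⟨1, by ring⟩
    · rw [lw1, lw2]
      omega
    · have h1 : ((ww d m (lw R t) : ℕ) : ℤ) < ((2 * ((p - 1) * (3 * d)) : ℕ) : ℤ) := by
        rw [ww_low hm ht.1, hp]
        push_cast
        have h3 : (t : ℤ) ≤ d := by exact_mod_cast ht.2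
        have h4 : (0 : ℤ) < R * (18 * d + 3 * m - 18 * t) := mul_pos hRz (by linarith)
        nlinarith
      exact_mod_cast h1
  · rintro ⟨h1, h2, h3⟩
    rw [hp] at h1
    obtain ⟨a0, ha0⟩ : ∃ a, U 0 = 6 * R * a := by
      have := (h1 0).2
      rw [hc0, add_zero] at this
      exact this
    obtain ⟨a1, ha1⟩ : ∃ a, U 1 = 6 * R * a := by
      have := (h1 1).2
      rw [hc1, add_zero] at this
      exact this
    obtain ⟨a2, ha2⟩ : ∃ a, U 2 + 3 * R = 6 * R * a := by
      have := (h1 2).2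
      rw [hc2] at this
      exact this
    obtain ⟨a3, ha3⟩ : ∃ a, U 3 + 3 * R = 6 * R * a := by
      have := (h1 3).2
      rw [hc3] at this
      exact this
    have hn0 : a0 ≠ 0 := by
      rintro rfl
      exact (h1 0).1 (by rw [ha0, mul_zero])
    have hn1 : a1 ≠ 0 := by
      rintro rfl
      exact (h1 1).1 (by rw [ha1, mul_zero])
    have hn2 : a2 ≠ 0 := by
      rintro rfl
      rw [mul_zero] at ha2
      omega
    have hn3 : a3 ≠ 0 := by
      rintro rfl
      rw [mul_zero] at ha3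
      omega
    have hz0 : (U 0 : ℤ) = 6 * R * a0 := by exact_mod_cast ha0
    have hz1 : (U 1 : ℤ) = 6 * R * a1 := by exact_mod_cast ha1
    have hz2 : (U 2 : ℤ) = 6 * R * a2 - 3 * R := by
      have : ((U 2 + 3 * R : ℕ) : ℤ) = ((6 * R * a2 : ℕ) : ℤ) := by rw [ha2]
      push_cast at this
      linarith
    have hz3 : (U 3 : ℤ) = 6 * R * a3 - 3 * R := by
      have : ((U 3 + 3 * R : ℕ) : ℤ) = ((6 * R * a3 : ℕ) : ℤ) := by rw [ha3]
      push_cast at this
      linarith
    have hw : max (l1 d m U) (l2 d U) < 36 * (R * d : ℤ) := by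
      have h4 : ((ww d m U : ℕ) : ℤ) < ((2 * ((p - 1) * (3 * d)) : ℕ) : ℤ) := by exact_mod_cast h3
      rw [ww_cast, hp] at h4
      push_cast at h4
      calc max (l1 d m U) (l2 d U) < 2 * (6 * R * (3 * d)) := h4
        _ = _ := by ring
    have hw1 := lt_of_le_of_lt (le_max_left _ _) hw
    have hw2 := lt_of_le_of_lt (le_max_right _ _) hw
    have h23 : a2 = 1 ∧ a3 = 1 := by
      unfold l2 at hw2
      rw [hz2, hz3] at hw2
      have h5 : (R * d : ℤ) * (a2 + a3) < (R * d) * 3 := by nlinarith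
      have h6 : (a2 + a3 : ℤ) < 3 := lt_of_mul_lt_mul_left h5 (by positivity)
      have h7 : a2 + a3 < 3 := by exact_mod_cast h6
      omega
    obtain ⟨rfl, rfl⟩ := h23
    have hU2 : U 2 = 3 * R := by omega
    have hU3 : U 3 = 3 * R := by omega
    have h11 : a1 = 1 := by
      rw [ha1, hU2] at h2
      have h5 : R * (6 * a1) ≤ R * 9 := by linarith
      have h6 := Nat.le_of_mul_le_mul_left h5 hR
      omega
    subst h11
    have h01 : a0 ≤ d := by
      unfold l1 at hw1
      rw [hz0, hz1, hz2, hz3] at hw1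
      have h5 : (R : ℤ) * (6 * a0) < R * (6 * d + m) := by nlinarith
      have h6 := lt_of_mul_lt_mul_left h5 hRz.le
      have h7 : 6 * a0 < 6 * d + m := by exact_mod_cast h6
      omega
    refine Finset.mem_image.2 ⟨a0, Finset.mem_Icc.2 ⟨by omega, h01⟩, ?_⟩
    refine fin4_ext ?_ ?_ ?_ ?_
    · rw [lw0, ha0]
    · rw [lw1, ha1, mul_one]
    · rw [lw2, hU2]
    · rw [lw3, hU3]

/-- the tight multiplicities -/
private theorem wei_tight {p : ℕ} (g A B : Polynomial k) (hg : 0 < g.natDegree) (hB0 : 1 ≤ B.natDegree)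
    (hB5 : B.natDegree ≤ 5) (hA : 3 * A.natDegree < 2 * B.natDegree) {r : ℕ}
    (hp : p - 1 = 6 * (g.natDegree * r)) (hp1 : 1 ≤ p) {t : ℕ} (ht : 1 ≤ t) (htd : t ≤ g.natDegree) :
    ∃ f, IsTight (wwt p g A B hg hA) (lw (g.natDegree * r) t) (lw (g.natDegree * r) t) f ∧
      ∀ e ∈ (ell4 (weiF A B) g).support, f e < p := by
  classical
  obtain ⟨d, hd⟩ : ∃ d, d = g.natDegree := ⟨_, rfl⟩
  obtain ⟨m, hm⟩ : ∃ m, m = B.natDegree := ⟨_, rfl⟩
  obtain ⟨R, hRd⟩ : ∃ R, R = d * r := ⟨_, rfl⟩
  have hRd' : R = g.natDegree * r := by rw [hRd, hd]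
  rw [← hRd'] at hp ⊢
  set v1 : Fin 4 →₀ ℕ := Finsupp.single 0 g.natDegree with hv1
  set v2 : Fin 4 →₀ ℕ := Finsupp.single 1 3 + Finsupp.single 2 1 with hv2
  set v3 : Fin 4 →₀ ℕ := Finsupp.single 0 B.natDegree + Finsupp.single 2 1 with hv3
  set v4 : Fin 4 →₀ ℕ := Finsupp.single 3 1 with hv4
  have n21 : v2 ≠ v1 := ne_of_apply 2 (by simp [hv1, hv2])
  have n31 : v3 ≠ v1 := ne_of_apply 2 (by simp [hv1, hv3])
  have n41 : v4 ≠ v1 := ne_of_apply 3 (by simp [hv1, hv4])
  have n32 : v3 ≠ v2 := ne_of_apply 1 (by simp [hv3, hv2])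
  have n42 : v4 ≠ v2 := ne_of_apply 3 (by simp [hv4, hv2])
  have n43 : v4 ≠ v3 := ne_of_apply 3 (by simp [hv4, hv3])
  set f : (Fin 4 →₀ ℕ) → ℕ := fun e => if e = v1 then r * (6 * t - m) else if e = v2 then 2 * R else
    if e = v3 then R else if e = v4 then 3 * R else 0 with hf
  have f1 : f v1 = r * (6 * t - m) := by simp [hf]
  have f2 : f v2 = 2 * R := by simp [hf, n21]
  have f3 : f v3 = R := by simp [hf, n31, n32]
  have f4 : f v4 = 3 * R := by simp [hf, n41, n42, n43]
  have hne : ∀ e, f e ≠ 0 → e = v1 ∨ e = v2 ∨ e = v3 ∨ e = v4 := by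
    intro e he
    by_contra hcon
    simp only [not_or] at hcon
    apply he
    simp only [hf]
    rw [if_neg hcon.1, if_neg hcon.2.1, if_neg hcon.2.2.1, if_neg hcon.2.2.2]
  have h6 : m ≤ 6 * t := by omega
  have hsum : ∑ e ∈ (ell4 (weiF A B) g).support, f e • e = lw R t := by
    rw [wei_sum g A B hg hB0 (fun e => f e • e)]
    · show f v1 • v1 + (f v2 • v2 + (f v3 • v3 + f v4 • v4)) = lw R t
      rw [f1, f2, f3, f4]
      refine fin4_ext ?_ ?_ ?_ ?_
      · rw [lw0]
        simp [hv1, hv2, hv3, hv4]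
        rw [← hd, ← hm]
        have e1 : r * (6 * t - m) * d + R * m = R * (6 * t) := by
          have e2 : (6 * t - m) + m = 6 * t := by omega
          calc r * (6 * t - m) * d + R * m = R * ((6 * t - m) + m) := by rw [hRd]; ring
            _ = _ := by rw [e2]
        rw [e1]
        ring
      · rw [lw1]
        simp [hv1, hv2, hv3, hv4]
        ring
      · rw [lw2]
        simp [hv1, hv2, hv3, hv4]
        ring
      · rw [lw3]
        simp [hv1, hv2, hv3, hv4]
    · intro e _ he
      refine hne e fun h0 => he ?_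
      rw [h0, zero_smul]
  have hcnt : ∑ e ∈ (ell4 (weiF A B) g).support, f e = r * (6 * t - m) + 6 * R := by
    rw [wei_sum g A B hg hB0 f]
    · show f v1 + (f v2 + (f v3 + f v4)) = _
      rw [f1, f2, f3, f4]
      ring
    · intro e _ he
      exact hne e he
  refine ⟨f, ⟨?_, ?_⟩, ?_⟩
  · rw [hsum]
    have : p = (p - 1) + 1 := by omega
    conv_rhs => rw [this]
    rw [add_smul, one_smul]
  · rw [hcnt]
    show ww g.natDegree B.natDegree (lw R t) + (p - 1) * (3 * g.natDegree) * (r * (6 * t - m) + 6 * R) =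
      p * ww g.natDegree B.natDegree (lw R t)
    rw [← hd, ← hm]
    have hww : ww d m (lw R t) = 3 * d * (r * (6 * t - m) + 6 * R) := by
      have h1 : ((ww d m (lw R t) : ℕ) : ℤ) = ((3 * d * (r * (6 * t - m) + 6 * R) : ℕ) : ℤ) := by
        rw [ww_low (by omega) ht]
        push_cast [Nat.cast_sub h6]
        have : (R : ℤ) = d * r := by rw [hRd]; push_cast; ring
        rw [this]
        ring
      exact_mod_cast h1
    have : p = (p - 1) + 1 := by omega
    conv_rhs => rw [this]
    rw [hww]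
    ring
  · intro e _
    have hpR : p = 6 * R + 1 := by omega
    simp only [hf]
    split_ifs
    · have h1 : r * (6 * t - m) ≤ r * (6 * d) := Nat.mul_le_mul_left _ (by omega)
      have h2 : r * (6 * d) = 6 * R := by rw [hRd]; ring
      omega
    · omega
    · omega
    · omega
    · omega

private theorem wei_uniq {p : ℕ} (g A B : Polynomial k) (hg : 0 < g.natDegree) (hB0 : 1 ≤ B.natDegree)
    (hB5 : B.natDegree ≤ 5) (hA : 3 * A.natDegree < 2 * B.natDegree) {r : ℕ} (hr : 0 < r)
    (hp : p - 1 = 6 * (g.natDegree * r)) (hp1 : 1 ≤ p) {t s : ℕ} (ht : 1 ≤ t) (htd : t ≤ g.natDegree)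
    (hs : 1 ≤ s) (hsd : s ≤ g.natDegree) {f : (Fin 4 →₀ ℕ) → ℕ}
    (hf : IsTight (wwt p g A B hg hA) (lw (g.natDegree * r) t) (lw (g.natDegree * r) s) f) :
    s = t ∧ f (Finsupp.single 0 g.natDegree) + B.natDegree * r = 6 * t * r ∧
      f (Finsupp.single 1 3 + Finsupp.single 2 1) = 2 * (g.natDegree * r) ∧
      f (Finsupp.single 0 B.natDegree + Finsupp.single 2 1) = g.natDegree * r ∧
      f (Finsupp.single 3 1) = 3 * (g.natDegree * r) ∧
      ∀ e ∈ (ell4 (weiF A B) g).support, f e ≠ 0 → e = Finsupp.single 0 g.natDegree ∨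
        e = Finsupp.single 1 3 + Finsupp.single 2 1 ∨ e = Finsupp.single 0 B.natDegree + Finsupp.single 2 1 ∨
        e = Finsupp.single 3 1 := by
  classical
  obtain ⟨R, hRd⟩ : ∃ R, R = g.natDegree * r := ⟨_, rfl⟩
  rw [← hRd] at hp hf ⊢
  have hR : 0 < R := by rw [hRd]; positivity
  have hpR : p = 6 * R + 1 := by omega
  obtain ⟨h1, h2⟩ := hf
  have h2' : ww g.natDegree B.natDegree (lw R s) +
      (p - 1) * (3 * g.natDegree) * ∑ e ∈ (ell4 (weiF A B) g).support, f e =
      p * ww g.natDegree B.natDegree (lw R t) := h2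
  have h3 : ∑ e ∈ (ell4 (weiF A B) g).support, (f e : ℤ) * (3 * g.natDegree - l1 g.natDegree B.natDegree e) = 0 := by
    have e1 := congrArg (l1 g.natDegree B.natDegree) h1
    rw [l1_add, l1_smul, l1_smul, l1_sum] at e1
    have e2 : ((ww g.natDegree B.natDegree (lw R s) +
      (p - 1) * (3 * g.natDegree) * ∑ e ∈ (ell4 (weiF A B) g).support, f e : ℕ) : ℤ) =
      ((p * ww g.natDegree B.natDegree (lw R t) : ℕ) : ℤ) := by rw [h2']
    push_cast at e2
    rw [ww_low hB5 ht, ww_low hB5 hs] at e2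
    have l1low : ∀ t' : ℕ, l1 g.natDegree B.natDegree (lw R t') =
        R * (18 * t' - 3 * B.natDegree + 18 * g.natDegree) := by
      intro t'
      unfold l1
      rw [lw0, lw1, lw2, lw3]
      push_cast
      ring
    rw [l1low, l1low] at e1
    have e3 : ((p - 1 : ℕ) : ℤ) ≠ 0 := by
      rw [hp]
      have : (0 : ℤ) < ((6 * R : ℕ) : ℤ) := by exact_mod_cast (by omega : 0 < 6 * R)
      exact this.ne'
    have e4 : ((p - 1 : ℕ) : ℤ) * (∑ e ∈ (ell4 (weiF A B) g).support, (f e : ℤ) * l1 g.natDegree B.natDegree e) =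
        ((p - 1 : ℕ) : ℤ) * (3 * g.natDegree * ∑ e ∈ (ell4 (weiF A B) g).support, (f e : ℤ)) := by
      linarith
    have e5 := mul_left_cancel₀ e3 e4
    simp_rw [mul_sub]
    rw [Finset.sum_sub_distrib, e5, ← Finset.sum_mul]
    ring
  have h4 : ∀ e ∈ (ell4 (weiF A B) g).support, f e ≠ 0 → e = Finsupp.single 0 g.natDegree ∨
        e = Finsupp.single 1 3 + Finsupp.single 2 1 ∨ e = Finsupp.single 0 B.natDegree + Finsupp.single 2 1 ∨
        e = Finsupp.single 3 1 := by
    intro e he hfe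
    have e1 := (Finset.sum_eq_zero_iff_of_nonneg (fun e he => by
      have := (wei_exp g A B hA he).1
      exact mul_nonneg (by positivity) (by linarith))).1 h3 e he
    have e2 : (f e : ℤ) ≠ 0 := by exact_mod_cast hfe
    rcases mul_eq_zero.1 e1 with e3 | e3
    · exact absurd e3 e2
    · exact (wei_exp g A B hA he).2.2.2 (by linarith)
  have hsum := wei_sum g A B hg hB0 (fun e => f e • e) (fun e he h0 => h4 e he fun h5 => h0 (by
    show f e • e = 0
    rw [h5, zero_smul]))
  rw [hsum, hp, hpR] at h1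
  set f1 := f (Finsupp.single 0 g.natDegree)
  set f2 := f (Finsupp.single 1 3 + Finsupp.single 2 1)
  set f3 := f (Finsupp.single 0 B.natDegree + Finsupp.single 2 1)
  set f4 := f (Finsupp.single 3 1)
  have c0 := congrArg (fun U : Fin 4 →₀ ℕ => U 0) h1
  have c1 := congrArg (fun U : Fin 4 →₀ ℕ => U 1) h1
  have c2 := congrArg (fun U : Fin 4 →₀ ℕ => U 2) h1
  have c3 := congrArg (fun U : Fin 4 →₀ ℕ => U 3) h1
  simp [lw0] at c0
  simp [lw1] at c1
  simp [lw2] at c2
  simp [lw3] at c3
  have g2 : f2 = 2 * R := by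
    have : R * (3 * f2) = R * (6 * R) := by linarith
    have := Nat.eq_of_mul_eq_mul_left hR this
    omega
  have g4 : f4 = 3 * R := by
    have : R * (6 * f4) = R * (18 * R) := by linarith
    have := Nat.eq_of_mul_eq_mul_left hR this
    omega
  have g3 : f3 = R := by
    rw [g2] at c2
    have : R * (6 * f3) = R * (6 * R) := by linarith
    have := Nat.eq_of_mul_eq_mul_left hR this
    omega
  have g0 : (g.natDegree : ℤ) * (f1 + B.natDegree * r - 6 * t * r) = (t : ℤ) - s := by
    have e1 : R * (6 * (f1 * g.natDegree + f3 * B.natDegree)) + R * (6 * s) = R * ((6 * R + 1) * (6 * t)) := by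
      linarith
    have e2 : R * (6 * (f1 * g.natDegree + f3 * B.natDegree) + 6 * s) = R * ((6 * R + 1) * (6 * t)) := by
      rw [← e1]; ring
    have e3 := Nat.eq_of_mul_eq_mul_left hR e2
    rw [g3] at e3
    have e4 : ((6 * (f1 * g.natDegree + R * B.natDegree) + 6 * s : ℕ) : ℤ) = (((6 * R + 1) * (6 * t) : ℕ) : ℤ) := by
      rw [e3]
    push_cast at e4
    have e5 : (R : ℤ) = g.natDegree * r := by rw [hRd]; push_cast; ring
    rw [e5] at e4
    linarith
  have hst : (t : ℤ) - s = 0 := by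
    refine Int.eq_zero_of_abs_lt_dvd (m := (g.natDegree : ℤ)) ⟨_, g0.symm⟩ ?_
    rw [abs_lt]
    constructor <;> omega
  have hdz : (g.natDegree : ℤ) ≠ 0 := by
    have : (0 : ℤ) < g.natDegree := by exact_mod_cast hg
    exact this.ne'
  have g1 : (f1 : ℤ) + B.natDegree * r = 6 * t * r := by
    rw [hst] at g0
    rcases mul_eq_zero.1 g0 with h5 | h5
    · exact absurd h5 hdz
    · linarith
  refine ⟨by omega, by exact_mod_cast g1, g2, g3, g4, h4⟩

end wei

theorem wei_simple {p : ℕ} [Fact p.Prime] (hp : p ≠ 2) {k : Type} [Field k] {g : Polynomial k}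
    (hg : 0 < g.natDegree) (hd : 6 * g.natDegree ∣ p - 1) (A B : Polynomial k)
    (hB : B.natDegree ∈ ({1, 2, 4, 5} : Set ℕ)) (hA : 3 * A.natDegree < 2 * B.natDegree) :
    ∃ (C : (Fin 4 →₀ ℕ) → Prop) (ω : Weight p (ell4 (weiF A B) g).support C)
      (low : Finset (Fin 4 →₀ ℕ)), ω.l = 3 * g.natDegree ∧
      Simple ω (ellc p) (2 * ((p - 1) * ω.l)) low ∧ low.card = g.natDegree := by
  classical
  have hB0 : 1 ≤ B.natDegree ∧ B.natDegree ≤ 5 := by
    simp only [Set.mem_insert_iff, Set.mem_singleton_iff] at hB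
    omega
  have hp2 : 2 ≤ p := (Fact.out : p.Prime).two_le
  obtain ⟨r, hr⟩ := hd
  have hr' : p - 1 = 6 * (g.natDegree * r) := by rw [hr]; ring
  have hr0 : 0 < r := by
    rcases Nat.eq_zero_or_pos r with h | h
    · rw [h, mul_zero] at hr
      omega
    · exact h
  have hR : 0 < g.natDegree * r := Nat.mul_pos hg hr0
  have hml := wei_mem_low (p := p) (m := B.natDegree) hg hR hr' hB0.1 hB0.2
  refine ⟨_, wwt p g A B hg hA, (Finset.Icc 1 g.natDegree).image (lw (g.natDegree * r)), rfl, ?_, ?_⟩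
  · refine ⟨hml, ?_, ?_, ?_, ?_⟩
    · intro U hU V hV h
      obtain ⟨t, ht, rfl⟩ := Finset.mem_image.1 hU
      obtain ⟨s, hs, rfl⟩ := Finset.mem_image.1 hV
      rw [Finset.mem_Icc] at ht hs
      have h1 : ((ww g.natDegree B.natDegree (lw (g.natDegree * r) t) : ℕ) : ℤ) =
          ((ww g.natDegree B.natDegree (lw (g.natDegree * r) s) : ℕ) : ℤ) := by
        have : ww g.natDegree B.natDegree (lw (g.natDegree * r) t) =
          ww g.natDegree B.natDegree (lw (g.natDegree * r) s) := h
        rw [this]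
      rw [ww_low hB0.2 ht.1, ww_low hB0.2 hs.1] at h1
      have h2 : ((g.natDegree * r : ℕ) : ℤ) ≠ 0 := by exact_mod_cast hR.ne'
      have h3 := mul_left_cancel₀ h2 h1
      have h4 : (t : ℤ) = s := by linarith
      have h5 : t = s := by exact_mod_cast h4
      rw [h5]
    · intro U hU
      obtain ⟨t, ht, rfl⟩ := Finset.mem_image.1 hU
      rw [Finset.mem_Icc] at ht
      exact wei_tight g A B hg hB0.1 hB0.2 hA hr' (by omega) ht.1 ht.2
    · intro U hU V hV f f' hf hf'
      obtain ⟨t, ht, rfl⟩ := Finset.mem_image.1 hU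
      obtain ⟨s, hs, rfl⟩ := Finset.mem_image.1 hV
      rw [Finset.mem_Icc] at ht hs
      obtain ⟨a0, a1, a2, a3, a4, a5⟩ := wei_uniq g A B hg hB0.1 hB0.2 hA hr0 hr' (by omega) ht.1 ht.2 hs.1 hs.2 hf
      obtain ⟨_, b1, b2, b3, b4, b5⟩ := wei_uniq g A B hg hB0.1 hB0.2 hA hr0 hr' (by omega) ht.1 ht.2 ht.1 ht.2 hf'
      refine ⟨by rw [a0], fun e he => ?_⟩
      by_cases hV : e = Finsupp.single 0 g.natDegree ∨
        e = Finsupp.single 1 3 + Finsupp.single 2 1 ∨ e = Finsupp.single 0 B.natDegree + Finsupp.single 2 1 ∨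
        e = Finsupp.single 3 1
      · rcases hV with rfl | rfl | rfl | rfl
        · omega
        · rw [a2, b2]
        · rw [a3, b3]
        · rw [a4, b4]
      · have h1 : f e = 0 := by
          by_contra h0
          exact hV (a5 e he h0)
        have h2 : f' e = 0 := by
          by_contra h0
          exact hV (b5 e he h0)
        rw [h1, h2]
    · intro U Z hU _
      show 2 * ((p - 1) * (3 * g.natDegree)) ≤ ww g.natDegree B.natDegree U +
        max 1 Z.card * ((p - 1) * (3 * g.natDegree))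
      have hge : ∀ j : Fin 4, ellc p j = 3 * (g.natDegree * r) → 3 * (g.natDegree * r) ≤ U j := by
        intro j hj
        obtain ⟨a, ha⟩ := (hU j).2
        rw [hj, hr'] at ha
        have ha0 : a ≠ 0 := by
          rintro rfl
          rw [mul_zero] at ha
          omega
        have : 6 * (g.natDegree * r) * 1 ≤ 6 * (g.natDegree * r) * a := Nat.mul_le_mul_left _ (by omega)
        omega
      have h2 := hge 2 (by
        show (p - 1) / 2 = 3 * (g.natDegree * r)
        omega)
      have h3 := hge 3 (by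
        show (p - 1) / 2 = 3 * (g.natDegree * r)
        omega)
      have h4 : (p - 1) * (3 * g.natDegree) ≤ ww g.natDegree B.natDegree U := by
        have h5 : (((p - 1) * (3 * g.natDegree) : ℕ) : ℤ) ≤ ((ww g.natDegree B.natDegree U : ℕ) : ℤ) := by
          rw [ww_cast, hr']
          refine le_trans ?_ (le_max_right _ _)
          unfold l2
          have h6 : ((6 * (g.natDegree * r) : ℕ) : ℤ) ≤ (U 2 : ℤ) + U 3 := by
            have : 6 * (g.natDegree * r) ≤ U 2 + U 3 := by omega
            exact_mod_cast this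
          have h7 : (0 : ℤ) ≤ 3 * g.natDegree := by positivity
          have h8 := mul_le_mul_of_nonneg_left h6 h7
          push_cast at h8 ⊢
          linarith
        exact_mod_cast h5
      have h5 : 1 * ((p - 1) * (3 * g.natDegree)) ≤ max 1 Z.card * ((p - 1) * (3 * g.natDegree)) :=
        Nat.mul_le_mul_right _ (le_max_left _ _)
      omega
  · rw [Finset.card_image_of_injective]
    · simp
    · intro a b hab
      have h1 := congrArg (fun U : Fin 4 →₀ ℕ => U 0) hab
      have h2 : 6 * (g.natDegree * r) * a = 6 * (g.natDegree * r) * b := h1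
      exact Nat.eq_of_mul_eq_mul_left (by omega) h2

end Pool.Agent.Helper9.WS
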